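import Pool.Agent.H773.CS.Stm

set_option autoImplicit false

/-! Project CS (helper773): the count of the violations of the fourth clause. -/

open Finset

namespace Pool.Agent.H387.CS

open Pool.Agent.H773.CS

section count

variable {P : ℕ} [NeZero P]

/-- both in `N` -/
def SH (N : Finset (ZMod P × Bool)) (y : ZMod P) : Finset (ZMod P × Bool × Bool) :=
  univ.filter (fun t : ZMod P × Bool × Bool => (t.1, t.2.1) ∈ N ∧ (t.1 + y, t.2.2) ∈ N)

/-- the first in `N`, the second not in `N` -/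
def SD (N : Finset (ZMod P × Bool)) (y : ZMod P) : Finset (ZMod P × Bool × Bool) :=
  univ.filter (fun t : ZMod P × Bool × Bool => (t.1, t.2.1) ∈ N ∧ (t.1 + y, t.2.2) ∉ N)

theorem card_SH (N : Finset (ZMod P × Bool)) (y : ZMod P) : (SH N y).card = HH N y := rfl

theorem card_first (N : Finset (ZMod P × Bool)) :
    (univ.filter (fun t : ZMod P × Bool × Bool => (t.1, t.2.1) ∈ N)).card = 2 * N.card := by
  have h1 : (N ×ˢ (univ : Finset Bool)).card = 2 * N.card := by
    rw [card_product, card_univ, Fintype.card_bool, mul_comm]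
  rw [← h1]
  refine card_nbij' (fun t => ((t.1, t.2.1), t.2.2)) (fun z => (z.1.1, z.1.2, z.2)) ?_ ?_ ?_ ?_
  · intro t ht
    rw [mem_coe, mem_filter] at ht
    rw [mem_coe, mem_product]
    exact ⟨ht.2, mem_univ _⟩
  · intro z hz
    rw [mem_coe, mem_product] at hz
    rw [mem_coe, mem_filter]
    exact ⟨mem_univ _, hz.1⟩
  · intro t _
    rfl
  · intro z _
    rfl

theorem card_SD (N : Finset (ZMod P × Bool)) (y : ZMod P) :
    (SD N y).card + HH N y = 2 * N.card := by
  rw [← card_first N, ← card_SH, ← card_union_of_disjoint]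
  · congr 1
    ext t
    simp only [SD, SH, mem_union, mem_filter, mem_univ, true_and]
    tauto
  · rw [disjoint_left]
    intro t h1 h2
    simp only [SD, SH, mem_filter, mem_univ, true_and] at h1 h2
    exact h1.2 h2.2

theorem card_fib {α β : Type} [Fintype α] [Fintype β] (p : α → β → Prop)
    [∀ a b, Decidable (p a b)] :
    (univ.filter (fun b : α × β => p b.1 b.2)).card =
      ∑ a, (univ.filter (fun c : β => p a c)).card := by
  simp only [card_filter, Fintype.sum_prod_type]

/-- blocks with `t₁ ∈ S y`, `t₂ ∈ T y` -/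
def VV (S T : ZMod P → Finset (ZMod P × Bool × Bool)) : Finset (Blk P) :=
  univ.filter (fun b : Blk P => b.2.1 ∈ S b.1.1 ∧ b.2.2.1 ∈ T b.1.1)

theorem card_VV (S T : ZMod P → Finset (ZMod P × Bool × Bool)) :
    (VV S T).card = 4 * P * ∑ y, (S y).card * (T y).card := by
  unfold VV
  rw [card_fib (fun (v : ZMod P × Bool) (c : (ZMod P × Bool × Bool) × (ZMod P × Bool × Bool) ×
    (ZMod P × Bool)) => c.1 ∈ S v.1 ∧ c.2.1 ∈ T v.1)]
  have h1 : ∀ v : ZMod P × Bool, (univ.filter (fun c : (ZMod P × Bool × Bool) ×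
      (ZMod P × Bool × Bool) × (ZMod P × Bool) => c.1 ∈ S v.1 ∧ c.2.1 ∈ T v.1)).card =
      2 * P * ((S v.1).card * (T v.1).card) := by
    intro v
    have h2 : univ.filter (fun c : (ZMod P × Bool × Bool) ×
        (ZMod P × Bool × Bool) × (ZMod P × Bool) => c.1 ∈ S v.1 ∧ c.2.1 ∈ T v.1) =
        S v.1 ×ˢ (T v.1 ×ˢ (univ : Finset (ZMod P × Bool))) := by
      ext c
      simp only [mem_filter, mem_univ, true_and, mem_product, and_true]
    rw [h2, card_product, card_product, card_univ, Fintype.card_prod, ZMod.card,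
      Fintype.card_bool]
    ring
  rw [sum_congr rfl fun v _ => h1 v, Fintype.sum_prod_type, mul_sum]
  refine sum_congr rfl fun y _ => ?_
  have h3 : ∑ _c : Bool, 2 * P * ((S y).card * (T y).card) =
      4 * P * ((S y).card * (T y).card) := by
    rw [sum_const, card_univ, Fintype.card_bool, smul_eq_mul]
    ring
  exact h3

end count

theorem t_c : S_c := by
  classical
  intro P q _ τ d
  obtain ⟨N, hN⟩ : ∃ N : Finset (ZMod P × Bool), N = cls τ d := ⟨_, rfl⟩
  have hmem : ∀ v, v ∈ N ↔ IsLab (τ v) ∧ coarse (τ v) = d := by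
    intro v
    rw [hN, cls, mem_filter]
    simp only [mem_univ, true_and]
  rw [← hN]
  obtain ⟨L, hL⟩ : ∃ L : Finset (Blk P),
    L = univ.filter (fun b : Blk P => LabOK (fun r => τ (bvar b r))) := ⟨_, rfl⟩
  have hLc : Set.ncard {b : Blk P | LabOK (fun r => τ (bvar b r))} = L.card := by
    rw [← Set.ncard_coe_finset, hL]
    congr 1
    ext b
    simp
  rw [hLc]
  -- blocks of the two kinds violate the fourth clause
  have hv1 : Disjoint L (VV (SH N) (SD N)) := by
    rw [disjoint_left]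
    intro b hb1 hb2
    rw [hL, mem_filter] at hb1
    simp only [VV, SH, SD, mem_filter, mem_univ, true_and] at hb2
    obtain ⟨h1, _, _, h4, _⟩ := hb1.2
    obtain ⟨⟨k1, k2⟩, k3, k4⟩ := hb2
    rw [hmem] at k1 k2 k3 k4
    have e1 : coarse (τ (bvar b 1)) = d := k1.2
    have e2 : coarse (τ (bvar b 2)) = d := k2.2
    have e3 : coarse (τ (bvar b 3)) = d := k3.2
    have e4 : coarse (τ (bvar b 4)) = coarse (τ (bvar b 3)) :=
      (h4 (e1.trans e3.symm)).1 (e2.trans e1.symm)
    exact k4 ⟨h1 4, e4.trans e3⟩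
  have hv2 : Disjoint L (VV (SD N) (SH N)) := by
    rw [disjoint_left]
    intro b hb1 hb2
    rw [hL, mem_filter] at hb1
    simp only [VV, SH, SD, mem_filter, mem_univ, true_and] at hb2
    obtain ⟨h1, _, _, h4, _⟩ := hb1.2
    obtain ⟨⟨k1, k2⟩, k3, k4⟩ := hb2
    rw [hmem] at k1 k2 k3 k4
    have e1 : coarse (τ (bvar b 1)) = d := k1.2
    have e3 : coarse (τ (bvar b 3)) = d := k3.2
    have e4 : coarse (τ (bvar b 4)) = d := k4.2
    have e2 : coarse (τ (bvar b 2)) = coarse (τ (bvar b 1)) :=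
      (h4 (e1.trans e3.symm)).2 (e4.trans e3.symm)
    exact k2 ⟨h1 2, e2.trans e1⟩
  have hv3 : Disjoint (VV (SH N) (SD N)) (VV (SD N) (SH N)) := by
    rw [disjoint_left]
    intro b hb1 hb2
    simp only [VV, SH, SD, mem_filter, mem_univ, true_and] at hb1 hb2
    exact hb2.1.2 hb1.1.2
  have hcard : L.card + (VV (SH N) (SD N)).card + (VV (SD N) (SH N)).card ≤ 64 * P ^ 4 := by
    rw [← card_union_of_disjoint hv1, ← card_union_of_disjoint
      (disjoint_union_left.2 ⟨hv2, hv3⟩)]
    refine (card_le_univ _).trans (le_of_eq ?_)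
    simp only [Fintype.card_prod, ZMod.card, Fintype.card_bool]
    ring
  rw [card_VV, card_VV] at hcard
  have hS : ∑ y, (SD N y).card * (SH N y).card = ∑ y, (SH N y).card * (SD N y).card :=
    sum_congr rfl fun y _ => mul_comm _ _
  rw [hS] at hcard
  have hsum : ∑ y : ZMod P, (HH N y : ℝ) * (2 * N.card - HH N y) =
      ((∑ y, (SH N y).card * (SD N y).card : ℕ) : ℝ) := by
    push_cast
    refine sum_congr rfl fun y _ => ?_
    have h1 : ((SD N y).card : ℝ) + (HH N y : ℝ) = 2 * (N.card : ℝ) := by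
      exact_mod_cast card_SD N y
    rw [card_SH, ← h1]
    ring
  rw [hsum]
  have hcR : (L.card : ℝ) + 4 * P * ((∑ y, (SH N y).card * (SD N y).card : ℕ) : ℝ) +
      4 * P * ((∑ y, (SH N y).card * (SD N y).card : ℕ) : ℝ) ≤ 64 * (P : ℝ) ^ 4 := by
    exact_mod_cast hcard
  linarith

end Pool.Agent.H387.CS
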